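import Pool.Agent.Work.MP_f62247_an.Mo.Main

open Pool.Agent.MinMod

theorem Pool.Agent.MinMod.variant_Monotone :
    ∃ δ : ℝ, 0 < δ ∧ AntitoneOn minModConst (Set.Ioo 1 (1 + δ)) :=
  Mo.antitone
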