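import Pool.Agent.Work.MP_f62247_an.Main

open Pool.Agent.MinMod

theorem Pool.Agent.MinMod.variant_Separated :
    ∃ κ δ : ℝ, 0 < κ ∧ 0 < δ ∧ ∀ l₁ l₂ : ℝ, 1 < l₁ → l₁ < 1 + δ → 1 < l₂ → l₂ < 1 + δ →
      l₁ - 1 ≤ κ * (l₂ - 1) → minModConst l₂ < minModConst l₁ := by
  obtain ⟨c, K, δ, hc, hK, hδ, h⟩ := two_sided
  refine ⟨c / (K + c), δ, by positivity, hδ, fun l₁ l₂ h1 h2 h3 h4 h5 => ?_⟩
  have a1 := (h (l₁ - 1) (by linarith) (by linarith)).1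
  have a2 := (h (l₂ - 1) (by linarith) (by linarith)).2
  rw [add_sub_cancel] at a1 a2
  refine a2.trans_lt (lt_of_lt_of_le ?_ a1)
  rw [EReal.coe_lt_coe_iff, sub_lt_sub_iff_left, Real.exp_lt_exp]
  have p1 : 0 < l₁ - 1 := by linarith
  have p2 : 0 < (l₂ - 1) ^ 2 := pow_pos (by linarith) 2
  rw [neg_div, neg_div, neg_lt_neg_iff, div_lt_div_iff₀ p2 (pow_pos p1 2)]
  rw [div_mul_eq_mul_div, le_div_iff₀ (by positivity)] at h5
  have p3 := pow_le_pow_left₀ (by positivity) h5 2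
  refine lt_of_mul_lt_mul_right ?_ (sq_nonneg (K + c))
  nlinarith [mul_le_mul_of_nonneg_left p3 hK.le, mul_pos (mul_pos hc p2) (mul_pos hK hK),
    mul_pos (mul_pos hc p2) (mul_pos hK hc), mul_pos (mul_pos hc p2) (mul_pos hc hc)]
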